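import Mathlib
import Pool.Agent.Sarkozy.Core
import Pool.Agent.Sarkozy.Supply

/-!
# Stretched exponential lower bound for the popular Furstenberg–Sárközy threshold
-/

namespace Pool.Agent.Results.MP_071fc1_co.StretchedExp

open Finset Filter Pool.Agent.Sarkozy

/-- `N` is `ε`-good: for every `δ ∈ (0,1]` and every set `A ⊆ {1,…,N}` with `|A| ≥ δ N` there is an
integer `y ≠ 0` such that at least `(δ² - ε) N` integers `x` satisfy `x ∈ A` and `x + y² ∈ A`. -/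
def EpsGood (ε : ℝ) (N : ℕ) : Prop :=
  ∀ δ : ℝ, 0 < δ → δ ≤ 1 → ∀ A : Finset ℤ, A ⊆ Finset.Icc 1 (N : ℤ) → δ * N ≤ (A.card : ℝ) →
    ∃ y : ℤ, y ≠ 0 ∧ (δ ^ 2 - ε) * N ≤ ((A.filter (fun x => x + y ^ 2 ∈ A)).card : ℝ)

/-- numerical facts about the parameters -/
lemma params {n : ℕ} (hn : 10 ≤ n) :
    2 / (81 * (n:ℝ) ^ 38) ≤ gam (3 * n ^ 7) (n ^ 7) (n ^ 8) (n ^ 2) ∧
    gam (3 * n ^ 7) (n ^ 7) (n ^ 8) (n ^ 2) ≤ 1 := by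
  have hn0 : (10:ℝ) ≤ n := by exact_mod_cast hn
  have hpos : (0:ℝ) < n := by linarith
  unfold gam
  push_cast
  have h1 : (n:ℝ) ^ 2 ≤ (n:ℝ) ^ 7 := pow_le_pow_right₀ (by linarith) (by norm_num)
  have h2 : 4 * (n:ℝ) ^ 14 ≤ (3 * (n:ℝ) ^ 7 - (n:ℝ) ^ 2) ^ 2 := by
    have a : 2 * (n:ℝ) ^ 7 ≤ 3 * (n:ℝ) ^ 7 - (n:ℝ) ^ 2 := by linarith
    have b : (0:ℝ) ≤ 2 * (n:ℝ) ^ 7 := by positivity
    calc 4 * (n:ℝ) ^ 14 = (2 * (n:ℝ) ^ 7) ^ 2 := by ring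
      _ ≤ _ := pow_le_pow_left₀ b a 2
  have h3 : (3 * (n:ℝ) ^ 7 - (n:ℝ) ^ 2) ^ 2 ≤ 9 * (n:ℝ) ^ 14 := by
    have a : 3 * (n:ℝ) ^ 7 - (n:ℝ) ^ 2 ≤ 3 * (n:ℝ) ^ 7 := by
      have : (0:ℝ) ≤ (n:ℝ) ^ 2 := by positivity
      linarith
    have b : (0:ℝ) ≤ 3 * (n:ℝ) ^ 7 - (n:ℝ) ^ 2 := by
      have : (0:ℝ) ≤ (n:ℝ) ^ 7 := by positivity
      linarith
    calc _ ≤ (3 * (n:ℝ) ^ 7) ^ 2 := pow_le_pow_left₀ b a 2
      _ = 9 * (n:ℝ) ^ 14 := by ring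
  constructor
  · have e1 : 4 / (n:ℝ) ^ 10 ≤ (3 * (n:ℝ) ^ 7 - (n:ℝ) ^ 2) ^ 2 / ((n:ℝ) ^ 8) ^ 3 := by
      rw [div_le_div_iff₀ (by positivity) (by positivity)]
      calc 4 * ((n:ℝ) ^ 8) ^ 3 = (4 * (n:ℝ) ^ 14) * (n:ℝ) ^ 10 := by ring
        _ ≤ _ := mul_le_mul_of_nonneg_right h2 (by positivity)
    have e2 : 2 * ((n:ℝ) ^ 2) ^ 2 / ((n:ℝ) ^ 7) ^ 2 = 2 / (n:ℝ) ^ 10 := by
      field_simp
    rw [e2]
    calc 2 / (81 * (n:ℝ) ^ 38) = 1 / (3 * (n:ℝ) ^ 7) ^ 4 * (4 / (n:ℝ) ^ 10 - 2 / (n:ℝ) ^ 10) := by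
          field_simp
          norm_num
      _ ≤ _ := by
          apply mul_le_mul_of_nonneg_left _ (by positivity)
          linarith
  · have e1 : (3 * (n:ℝ) ^ 7 - (n:ℝ) ^ 2) ^ 2 / ((n:ℝ) ^ 8) ^ 3 ≤ 9 := by
      rw [div_le_iff₀ (by positivity)]
      calc (3 * (n:ℝ) ^ 7 - (n:ℝ) ^ 2) ^ 2 ≤ 9 * (n:ℝ) ^ 14 := h3
        _ ≤ 9 * ((n:ℝ) ^ 8) ^ 3 := by
          rw [← pow_mul]
          have : (n:ℝ) ^ 14 ≤ (n:ℝ) ^ (8 * 3) := pow_le_pow_right₀ (by linarith) (by norm_num)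
          linarith
    have e2 : (0:ℝ) ≤ 2 * ((n:ℝ) ^ 2) ^ 2 / ((n:ℝ) ^ 7) ^ 2 := by positivity
    have e3 : 1 / (3 * (n:ℝ) ^ 7) ^ 4 ≤ 1 / 81 := by
      apply one_div_le_one_div_of_le (by norm_num)
      have : (1:ℝ) ≤ (n:ℝ) ^ 28 := one_le_pow₀ (by linarith)
      calc (81:ℝ) ≤ 81 * (n:ℝ) ^ 28 := by linarith
        _ = (3 * (n:ℝ) ^ 7) ^ 4 := by ring
    have e4 : (0:ℝ) ≤ 1 / (3 * (n:ℝ) ^ 7) ^ 4 := by positivity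
    calc _ ≤ 1 / (3 * (n:ℝ) ^ 7) ^ 4 * 9 := by
          apply mul_le_mul_of_nonneg_left _ e4
          linarith
      _ ≤ 1 / 81 * 9 := mul_le_mul_of_nonneg_right e3 (by norm_num)
      _ ≤ 1 := by norm_num

lemma err_bound {n : ℕ} (hn : 10 ≤ n) :
    3 * (((n ^ 8 : ℕ) : ℝ)) ^ 4 + 2 * (((n ^ (3 * n ^ 2) : ℕ) : ℝ)) ^ 3 ≤
      gam (3 * n ^ 7) (n ^ 7) (n ^ 8) (n ^ 2) / 32 * (((n ^ (3 * n ^ 2) : ℕ) : ℝ)) ^ 4 := by
  have hn0 : (10:ℝ) ≤ n := by exact_mod_cast hn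
  have hpos : (0:ℝ) < n := by linarith
  have hg := (params hn).1
  obtain ⟨T, hT⟩ : ∃ T : ℝ, T = ((n ^ (3 * n ^ 2) : ℕ) : ℝ) := ⟨_, rfl⟩
  rw [← hT]
  have hT48 : (n:ℝ) ^ 48 ≤ T := by
    rw [hT]
    push_cast
    apply pow_le_pow_right₀ (by linarith)
    nlinarith
  have hTpos : 0 < T := lt_of_lt_of_le (by positivity) hT48
  have h1 : (1:ℝ) / (1296 * (n:ℝ) ^ 38) ≤ gam (3 * n ^ 7) (n ^ 7) (n ^ 8) (n ^ 2) / 32 := by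
    have : (1:ℝ) / (1296 * (n:ℝ) ^ 38) = 2 / (81 * (n:ℝ) ^ 38) / 32 := by
      field_simp
      norm_num
    rw [this]
    linarith
  have h2 : 5 * T ^ 3 ≤ (1:ℝ) / (1296 * (n:ℝ) ^ 38) * T ^ 4 := by
    rw [div_mul_eq_mul_div, one_mul, le_div_iff₀ (by positivity)]
    have : 5 * (1296 * (n:ℝ) ^ 38) ≤ T := by
      have h10 : (10:ℝ) ^ 10 ≤ (n:ℝ) ^ 10 := pow_le_pow_left₀ (by norm_num) hn0 10
      calc 5 * (1296 * (n:ℝ) ^ 38) ≤ (n:ℝ) ^ 10 * (n:ℝ) ^ 38 := by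
            have : (0:ℝ) ≤ (n:ℝ) ^ 38 := by positivity
            nlinarith
        _ = (n:ℝ) ^ 48 := by ring
        _ ≤ T := hT48
    calc 5 * T ^ 3 * (1296 * (n:ℝ) ^ 38) = (5 * (1296 * (n:ℝ) ^ 38)) * T ^ 3 := by ring
      _ ≤ T * T ^ 3 := mul_le_mul_of_nonneg_right this (by positivity)
      _ = T ^ 4 := by ring
  have h3 : (((n ^ 8 : ℕ) : ℝ)) ^ 4 ≤ T ^ 3 := by
    push_cast
    calc ((n:ℝ) ^ 8) ^ 4 = (n:ℝ) ^ 32 := by ring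
      _ ≤ (n:ℝ) ^ 48 := pow_le_pow_right₀ (by linarith) (by norm_num)
      _ ≤ T := hT48
      _ = T ^ 1 := (pow_one T).symm
      _ ≤ T ^ 3 := by
        apply pow_le_pow_right₀ _ (by norm_num)
        calc (1:ℝ) ≤ (n:ℝ) ^ 48 := one_le_pow₀ (by linarith)
          _ ≤ T := hT48
  have h4 : (1:ℝ) / (1296 * (n:ℝ) ^ 38) * T ^ 4 ≤
      gam (3 * n ^ 7) (n ^ 7) (n ^ 8) (n ^ 2) / 32 * T ^ 4 :=
    mul_le_mul_of_nonneg_right h1 (by positivity)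
  have h5 : (0:ℝ) ≤ T ^ 3 := by positivity
  linarith

/-- for large `n`, the number `n ^ (12 n²)` is not `ε`-good as soon as `ε ≤ 1/(324 n^38)` -/
lemma not_good : ∀ᶠ n : ℕ in atTop, ∀ ε : ℝ, ε ≤ 1 / (324 * (n:ℝ) ^ 38) →
    ¬ EpsGood ε ((n ^ (3 * n ^ 2)) ^ 4) := by
  filter_upwards [exists_fam, eventually_ge_atTop 10] with n hn hn10 ε hε
  obtain ⟨𝒜, ℬ, F⟩ := hn
  have hn0 : (10:ℝ) ≤ n := by exact_mod_cast hn10
  have hpos : (0:ℝ) < n := by linarith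
  obtain ⟨hg1, hg2⟩ := params hn10
  obtain ⟨γ, hγ⟩ : ∃ γ, γ = gam (3 * n ^ 7) (n ^ 7) (n ^ 8) (n ^ 2) := ⟨_, rfl⟩
  have hJk : n ^ 2 ≤ 3 * n ^ 7 := by
    have : n ^ 2 ≤ n ^ 7 := Nat.pow_le_pow_right (by omega) (by norm_num)
    omega
  have hT : (n ^ (3 * n ^ 2)) ^ 2 < (n ^ 7) ^ (n ^ 2 + 1) := by
    rw [← pow_mul, ← pow_mul]
    apply Nat.pow_lt_pow_right (by omega)
    nlinarith
  have hP1 : 1 ≤ n ^ 8 := Nat.one_le_pow _ _ (by omega)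
  obtain ⟨A, hA, hA1, hA2⟩ := exists_bad_set F hJk hT hg2 (err_bound hn10) hP1
  rw [← hγ] at hA1 hA2 hg1 hg2
  obtain ⟨N, hN⟩ : ∃ N, N = (n ^ (3 * n ^ 2)) ^ 4 := ⟨_, rfl⟩
  rw [← hN] at hA hA1 hA2 ⊢
  have hNpos : (0:ℝ) < N := by
    rw [hN]; push_cast; positivity
  have hγpos : 0 < γ := lt_of_lt_of_le (by positivity) hg1
  intro hgood
  -- the set in ℤ
  let A' : Finset ℤ := A.map Nat.castEmbedding
  have hA'sub : A' ⊆ Finset.Icc 1 (N:ℤ) := by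
    intro x hx
    simp only [A', Finset.mem_map, Nat.castEmbedding_apply] at hx
    obtain ⟨a, ha, rfl⟩ := hx
    have := Finset.mem_Icc.mp (hA ha)
    rw [Finset.mem_Icc]
    exact ⟨by exact_mod_cast this.1, by exact_mod_cast this.2⟩
  have hcard : (A'.card : ℝ) = A.card := by simp [A']
  obtain ⟨y, hy, hyc⟩ := hgood (1 / 2 - γ / 32) (by linarith) (by linarith) A' hA'sub
    (by rw [hcard]; exact hA1)
  have hy' : 0 < y.natAbs := Int.natAbs_pos.mpr hy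
  have h2 := hA2 y.natAbs hy'
  have hset : (A'.filter (fun x => x + y ^ 2 ∈ A')) =
      (A.filter (fun x => x + y.natAbs ^ 2 ∈ A)).map Nat.castEmbedding := by
    have hsq : y ^ 2 = ((y.natAbs ^ 2 : ℕ) : ℤ) := by
      push_cast
      exact (sq_abs y).symm
    ext x
    simp only [A', Finset.mem_filter, Finset.mem_map, Nat.castEmbedding_apply]
    constructor
    · rintro ⟨⟨a, ha, rfl⟩, b, hb, hab⟩
      refine ⟨a, ⟨ha, ?_⟩, rfl⟩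
      rw [hsq] at hab
      have : b = a + y.natAbs ^ 2 := by exact_mod_cast hab
      rwa [← this]
    · rintro ⟨a, ⟨ha, hb⟩, rfl⟩
      refine ⟨⟨a, ha, rfl⟩, a + y.natAbs ^ 2, hb, ?_⟩
      rw [hsq]
      push_cast
      rfl
  rw [hset, Finset.card_map] at hyc
  have hε8 : ε ≤ γ / 8 := by
    have : (1:ℝ) / (324 * (n:ℝ) ^ 38) = 2 / (81 * (n:ℝ) ^ 38) / 8 := by
      field_simp
      norm_num
    rw [this] at hε
    linarith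
  have h3 : ((1 / 2 - γ / 32) ^ 2 - ε) * (N:ℝ) ≤ (1 / 4 - γ * (7 / 32)) * N := hyc.trans h2
  have h4 : (1 / 2 - γ / 32) ^ 2 - ε ≤ 1 / 4 - γ * (7 / 32) := le_of_mul_le_mul_right h3 hNpos
  nlinarith [sq_nonneg γ]

/-- **Main result.** For all sufficiently small `ε > 0`, every threshold `N₀` beyond which all
integers are `ε`-good satisfies `N₀ > exp (ε ^ (-1/20))`. -/
theorem result : ∃ ε₀ : ℝ, 0 < ε₀ ∧ ∀ ε : ℝ, 0 < ε → ε < ε₀ →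
    ∀ N₀ : ℕ, (∀ N : ℕ, N₀ ≤ N → EpsGood ε N) →
      Real.exp (ε ^ (-(1 / 20) : ℝ)) < (N₀ : ℝ) := by
  obtain ⟨n₀, hn₀⟩ := eventually_atTop.mp not_good
  obtain ⟨M, hM⟩ : ∃ M : ℝ, M = max (n₀ : ℝ) (2 * 10 ^ 7) := ⟨_, rfl⟩
  have hM1 : (2 * 10 ^ 7 : ℝ) ≤ M := by rw [hM]; exact le_max_right _ _
  have hM2 : (n₀ : ℝ) ≤ M := by rw [hM]; exact le_max_left _ _
  have hMpos : 0 < M := by linarith
  refine ⟨M ^ (-(40:ℝ)), by positivity, ?_⟩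
  intro ε hε hεM N₀ hgood
  -- x = ε^(-1/40)
  obtain ⟨x, hx⟩ : ∃ x : ℝ, x = ε ^ (-(1 / 40) : ℝ) := ⟨_, rfl⟩
  have hxpos : 0 < x := by rw [hx]; positivity
  have hx40 : ε = x ^ (-(40:ℝ)) := by
    rw [hx, ← Real.rpow_mul hε.le]
    norm_num
  have hx20 : ε ^ (-(1 / 20) : ℝ) = x ^ 2 := by
    rw [hx, ← Real.rpow_natCast, ← Real.rpow_mul hε.le]
    norm_num
  have hxM : M < x := by
    by_contra hcon
    push Not at hcon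
    have : M ^ (-(40:ℝ)) ≤ x ^ (-(40:ℝ)) :=
      Real.rpow_le_rpow_of_nonpos hxpos hcon (by norm_num)
    rw [← hx40] at this
    linarith
  obtain ⟨n, hn⟩ : ∃ n : ℕ, n = ⌈x⌉₊ := ⟨_, rfl⟩
  have hxn : x ≤ n := by rw [hn]; exact Nat.le_ceil x
  have hnx : (n:ℝ) < x + 1 := by rw [hn]; exact Nat.ceil_lt_add_one hxpos.le
  have hn2x : (n:ℝ) ≤ 2 * x := by linarith
  have hnn₀ : n₀ ≤ n := by
    have : (n₀ : ℝ) ≤ n := by linarith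
    exact_mod_cast this
  have hnbig : (2 * 10 ^ 7 : ℝ) ≤ n := by linarith
  have hnpos : (0:ℝ) < n := by linarith
  have hεn : ε ≤ 1 / (324 * (n:ℝ) ^ 38) := by
    have h1 : ε = 1 / x ^ 40 := by
      rw [hx40, Real.rpow_neg hxpos.le]
      rw [one_div]
      congr 1
      exact_mod_cast Real.rpow_natCast x 40
    have h2 : (n:ℝ) / 2 ≤ x := by linarith
    have h3 : ((n:ℝ) / 2) ^ 40 ≤ x ^ 40 := pow_le_pow_left₀ (by positivity) h2 40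
    have h4 : 324 * (n:ℝ) ^ 38 ≤ ((n:ℝ) / 2) ^ 40 := by
      have h5 : ((n:ℝ) / 2) ^ 40 = (n:ℝ) ^ 2 / 2 ^ 40 * (n:ℝ) ^ 38 := by ring
      rw [h5]
      apply mul_le_mul_of_nonneg_right _ (by positivity)
      rw [le_div_iff₀ (by positivity)]
      nlinarith
    rw [h1]
    exact one_div_le_one_div_of_le (by positivity) (h4.trans h3)
  have hbad := hn₀ n hnn₀ ε hεn
  -- the bad number is below N₀
  have hlt : (n ^ (3 * n ^ 2)) ^ 4 < N₀ := by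
    by_contra hcon
    push Not at hcon
    exact hbad (hgood _ hcon)
  have hexp : Real.exp (ε ^ (-(1 / 20) : ℝ)) ≤ (((n ^ (3 * n ^ 2)) ^ 4 : ℕ) : ℝ) := by
    rw [hx20]
    have h1 : x ^ 2 ≤ ((n ^ 2 : ℕ) : ℝ) := by
      push_cast
      exact pow_le_pow_left₀ hxpos.le hxn 2
    have h2 : Real.exp (x ^ 2) ≤ Real.exp ((n ^ 2 : ℕ) : ℝ) := Real.exp_le_exp.mpr h1
    have h3 : Real.exp ((n ^ 2 : ℕ) : ℝ) = (Real.exp 1) ^ (n ^ 2) := by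
      rw [← Real.exp_nat_mul, mul_one]
    have h4 : (Real.exp 1) ^ (n ^ 2) ≤ ((n:ℝ) ^ 12) ^ (n ^ 2) := by
      apply pow_le_pow_left₀ (Real.exp_pos 1).le
      have e1 : Real.exp 1 ≤ n := by linarith [Real.exp_one_lt_d9]
      calc Real.exp 1 ≤ n := e1
        _ = (n:ℝ) ^ 1 := (pow_one _).symm
        _ ≤ (n:ℝ) ^ 12 := pow_le_pow_right₀ (by linarith) (by norm_num)
    calc Real.exp (x ^ 2) ≤ (Real.exp 1) ^ (n ^ 2) := h3 ▸ h2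
      _ ≤ ((n:ℝ) ^ 12) ^ (n ^ 2) := h4
      _ = (((n ^ (3 * n ^ 2)) ^ 4 : ℕ) : ℝ) := by
        push_cast
        rw [← pow_mul, ← pow_mul]
        congr 1
        ring
  have hlt' : (((n ^ (3 * n ^ 2)) ^ 4 : ℕ) : ℝ) < N₀ := by exact_mod_cast hlt
  linarith

end Pool.Agent.Results.MP_071fc1_co.StretchedExp
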